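import Pool.Agent.Lib_helper14.PJ.CurveNF
import Pool.Agent.Lib_helper43.PJ.W_CurveB
import Pool.Agent.Lib_helper43.PJ.W_OrdA

/-!
Uniformizers at the points of the base curve.
-/

noncomputable section

namespace PicJump

namespace CN

open MvPolynomial

variable {k : Type} [Field k]

theorem eval_ptIdeal {v : Fin 4 → k} {f : Pol k} (hf : f ∈ ptIdeal v) (t : k) :
    eval (fun i => t * v i) f = 0 := by
  have h : ptIdeal v ≤ RingHom.ker (eval (fun i => t * v i)) := by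
    unfold ptIdeal
    rw [Ideal.span_le]
    rintro g ⟨i, j, rfl⟩
    rw [SetLike.mem_coe, RingHom.mem_ker]
    simp only [map_sub, map_mul, eval_C, eval_X]
    ring
  exact h hf

theorem eval_ptIdeal' {v : Fin 4 → k} {f : Pol k} (hf : f ∈ ptIdeal v) : eval v f = 0 := by
  have := eval_ptIdeal hf 1
  simpa only [one_mul] using this

theorem gen_mem (v : Fin 4 → k) (i j : Fin 4) : C (v j) * X i - C (v i) * X j ∈ ptIdeal v :=
  Ideal.subset_span ⟨i, j, rfl⟩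

theorem locPrin_of {I : Ideal (Pol k)} {P : PrimeDiv I} {v : Fin 4 → k}
    (hP : P.carrier = ptIdeal v) {i : Fin 4} (hi : v i ≠ 0) {π : Pol k} (hπ : π ∈ P.carrier)
    (h : ∀ j, ∃ s : Pol k, s ∉ P.carrier ∧ s * (C (v i) * X j - C (v j) * X i) ∈
      Ideal.span {π} ⊔ I) : LocPrin P π := by
  refine ⟨hπ, ?_⟩
  choose s hs hs' using h
  have hp := P.prime
  refine ⟨∏ j, s j, ?_, ?_⟩
  · intro h1
    rw [hp.prod_mem_iff] at h1
    obtain ⟨j, -, hj⟩ := h1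
    exact hs j hj
  · have hg : ∀ j, (∏ j, s j) * (C (v i) * X j - C (v j) * X i) ∈ Ideal.span {π} ⊔ I := by
      intro j
      rw [← Finset.mul_prod_erase _ _ (Finset.mem_univ j), mul_comm (s j), mul_assoc]
      exact Ideal.mul_mem_left _ _ (hs' j)
    have h2 : ptIdeal v ≤ (Ideal.span {π} ⊔ I).colon {∏ j, s j} := by
      unfold ptIdeal
      rw [Ideal.span_le]
      rintro g ⟨a, b, rfl⟩
      rw [SetLike.mem_coe, Submodule.mem_colon_singleton, smul_eq_mul]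
      have h3 : (C (v i) : Pol k) * C (v i)⁻¹ = 1 := by
        rw [← C_mul, mul_inv_cancel₀ hi, C_1]
      have h4 : (C (v b) * X a - C (v a) * X b) * ∏ j, s j =
          C (v i)⁻¹ * (C (v b) * ((∏ j, s j) * (C (v i) * X a - C (v a) * X i)) -
            C (v a) * ((∏ j, s j) * (C (v i) * X b - C (v b) * X i))) := by
        linear_combination (-(C (v b) * X a - C (v a) * X b) * ∏ j, s j) * h3
      rw [h4]
      exact Ideal.mul_mem_left _ _ (Ideal.sub_mem _ (Ideal.mul_mem_left _ _ (hg a))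
        (Ideal.mul_mem_left _ _ (hg b)))
    intro f hf
    rw [hP] at hf
    have := h2 hf
    rwa [Submodule.mem_colon_singleton, smul_eq_mul, mul_comm] at this

theorem eval_iot (v : Fin 4 → k) (s : S2 k) : eval v (iot s) = eval ![v 0, v 1] s := by
  have h : (aeval v : Pol k →ₐ[k] k).comp iot = aeval ![v 0, v 1] := by
    apply MvPolynomial.algHom_ext
    intro i
    fin_cases i <;> simp [iot]
  have h2 := congrArg (fun g => g s) h
  simpa only [AlgHom.comp_apply, MvPolynomial.aeval_eq_eval] using h2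

theorem iot_lin (α β : k) : iot (lin α β) = C β * X 0 - C α * X 1 := by
  simp [iot, lin, MvPolynomial.algebraMap_eq]

/-- the reference coordinate -/
theorem res_ref (α β : k) (i : Fin 2) : res α β (X i) =
    Polynomial.C (![α, β] i) * Polynomial.X := by
  fin_cases i <;> simp [res]

theorem diff_dvd {α β : k} (h : α ≠ 0 ∨ β ≠ 0) (c : k) (i : Fin 2) :
    lin α β ∣ C (![α, β] i) ^ 4 * A2 c - C (α ^ 4 + c * α ^ 2 * β ^ 2 + β ^ 4) * X i ^ 4 := by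
  rw [lin_dvd_iff h, map_sub, map_mul, map_mul, map_pow, map_pow, res_A2, res_ref]
  have hC : ∀ a : k, res α β (C a) = Polynomial.C a := by intro a; simp [res]
  rw [hC, hC]
  ring

/-- `B` with `A2 c = lin * B` does not vanish at the point. -/
theorem cofactor_ne [CharZero k] {c : k} (hc : c ^ 2 ≠ 4) {α β : k} (h : α ≠ 0 ∨ β ≠ 0)
    (h0 : α ^ 4 + c * α ^ 2 * β ^ 2 + β ^ 4 = 0) {B : S2 k} (hB : A2 c = lin α β * B) :
    eval ![α, β] B ≠ 0 := by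
  intro h1
  have h2 := congrArg (fun f => eval ![α, β] (pderiv 0 f)) hB
  simp only [A2, lin, map_add, Derivation.leibniz, Derivation.leibniz_pow, pderiv_X_self,
    pderiv_C, map_mul, map_sub, pderiv_X_of_ne (show (1 : Fin 2) ≠ 0 by decide), smul_eq_mul,
    nsmul_eq_mul, eval_X, eval_C, map_pow, map_natCast, map_one, map_zero, Matrix.cons_val_zero,
    Matrix.cons_val_one, h1] at h2
  norm_num at h2
  have hα : α ≠ 0 := by
    rintro rfl
    have h3 : β ^ 4 = 0 := by linear_combination h0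
    rcases h with h | h
    · exact h rfl
    · exact h (eq_zero_of_pow_eq_zero h3)
  have h3 : 2 * α ^ 2 + c * β ^ 2 = 0 := by
    have h4 : α * (2 * α ^ 2 + c * β ^ 2) = 0 := by linear_combination h2 / 2
    exact (mul_eq_zero.mp h4).resolve_left hα
  have h4 : β ^ 4 * (c ^ 2 - 4) = 0 := by
    linear_combination (-4) * h0 + (2 * α ^ 2 + c * β ^ 2) * h3
  rcases mul_eq_zero.mp h4 with h5 | h5
  · have hβ := eq_zero_of_pow_eq_zero h5
    subst hβ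
    have h6 : α ^ 4 = 0 := by linear_combination h0
    exact hα (eq_zero_of_pow_eq_zero h6)
  · exact hc (by linear_combination h5)

/-- The point `v` of the base curve. -/
structure Pt (c₀ c₁ : k) (P : PrimeDiv (base (G0 c₀) (G1 c₁))) (v : Fin 4 → k) : Prop where
  ne : v 0 ≠ 0 ∨ v 1 ≠ 0
  e0 : v 0 ^ 4 + c₀ * v 0 ^ 2 * v 1 ^ 2 + v 1 ^ 4 = v 2 ^ 4
  e1 : v 0 ^ 4 + c₁ * v 0 ^ 2 * v 1 ^ 2 + v 1 ^ 4 = v 3 ^ 4
  carrier : P.carrier = ptIdeal v

theorem exists_Pt [IsAlgClosed k] [CharZero k] {c₀ c₁ : k} (h : c₀ ≠ c₁) (h0 : c₀ ^ 2 ≠ 4)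
    (h1 : c₁ ^ 2 ≠ 4) (P : PrimeDiv (base (G0 c₀) (G1 c₁))) : ∃ v, Pt c₀ c₁ P v := by
  obtain ⟨v, h2, h3, h4, h5⟩ := point_cases h h0 h1 P
  refine ⟨v, h2, ?_, ?_, h5⟩
  · simp only [G0, map_sub, map_add, map_mul, map_pow, eval_X, eval_C] at h3
    linear_combination h3
  · simp only [G1, map_sub, map_add, map_mul, map_pow, eval_X, eval_C] at h4
    linear_combination h4

section

variable {c₀ c₁ : k} {P : PrimeDiv (base (G0 c₀) (G1 c₁))} {v : Fin 4 → k}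

theorem Pt.ref (hp : Pt c₀ c₁ P v) : ∃ i : Fin 2, ![v 0, v 1] i ≠ 0 := by
  rcases hp.ne with h | h
  · exact ⟨0, h⟩
  · exact ⟨1, h⟩

theorem Pt.not_mem (hp : Pt c₀ c₁ P v) {f : Pol k} (hf : eval v f ≠ 0) : f ∉ P.carrier := by
  intro h
  rw [hp.carrier] at h
  exact hf (eval_ptIdeal' h)

theorem Pt.lin_mem (hp : Pt c₀ c₁ P v) : iot (lin (v 0) (v 1)) ∈ P.carrier := by
  rw [iot_lin, hp.carrier]
  exact gen_mem v 0 1

/-- the polynomial `(a^4 - b^4)/(a - b)` -/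
def E4 (a b : Pol k) : Pol k := a ^ 3 + a ^ 2 * b + a * b ^ 2 + b ^ 3

/-- the coordinates `z` and `w` are locally congruent to multiples of the reference coordinate
modulo the linear form -/
theorem zw_mem (c : k) (j : Fin 4) (v : Fin 4 → k) (i : Fin 2) {I : Ideal (Pol k)}
    (hr : iot (A2 c) - X j ^ 4 ∈ I) (hne : v 0 ≠ 0 ∨ v 1 ≠ 0)
    (hv : v 0 ^ 4 + c * v 0 ^ 2 * v 1 ^ 2 + v 1 ^ 4 = v j ^ 4) :
    E4 (C (![v 0, v 1] i) * X j) (C (v j) * iot (X i)) *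
      (C (![v 0, v 1] i) * X j - C (v j) * iot (X i)) ∈ Ideal.span {iot (lin (v 0) (v 1))} ⊔ I := by
  obtain ⟨g, hg⟩ := diff_dvd hne c i
  have h1 : E4 (C (![v 0, v 1] i) * X j) (C (v j) * iot (X i)) *
      (C (![v 0, v 1] i) * X j - C (v j) * iot (X i)) =
      iot (lin (v 0) (v 1)) * iot g - C (![v 0, v 1] i) ^ 4 * (iot (A2 c) - X j ^ 4) := by
    rw [← map_mul, ← hg, hv]
    have hC : ∀ a : k, iot (C a) = C a := by intro a; simp [iot, MvPolynomial.algebraMap_eq]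
    simp only [map_sub, map_mul, map_pow, hC, E4]
    ring
  rw [h1]
  exact Ideal.sub_mem _ (Ideal.mem_sup_left (Ideal.mul_mem_right _ _
    (Ideal.mem_span_singleton_self _))) (Ideal.mul_mem_left _ _ (Ideal.mem_sup_right hr))

theorem eval_E4 [CharZero k] (v : Fin 4 → k) (i : Fin 2) (j : Fin 4) (hi : ![v 0, v 1] i ≠ 0)
    (hj : v j ≠ 0) : eval v (E4 (C (![v 0, v 1] i) * X j) (C (v j) * iot (X i))) ≠ 0 := by
  have h1 : eval v (iot (X i)) = ![v 0, v 1] i := by rw [eval_iot, eval_X]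
  simp only [E4, map_add, map_mul, map_pow, eval_C, eval_X, h1]
  have h2 : (![v 0, v 1] i * v j) ^ 3 ≠ 0 := pow_ne_zero _ (mul_ne_zero hi hj)
  intro h3
  apply h2
  linear_combination h3 / 4

theorem mem_r0 (c₀ c₁ : k) : iot (A2 c₀) - X 2 ^ 4 ∈ base (G0 c₀) (G1 c₁) := by
  rw [iot_A2]
  exact Ideal.subset_span (Or.inl rfl)

theorem mem_r1 (c₀ c₁ : k) : iot (A2 c₁) - X 3 ^ 4 ∈ base (G0 c₀) (G1 c₁) := by
  rw [iot_A2]
  exact Ideal.subset_span (Or.inr rfl)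

/-- the index of a coordinate of the line -/
def ix (i : Fin 2) : Fin 4 := ![0, 1] i

omit [Field k] in
theorem ix_v (v : Fin 4 → k) (i : Fin 2) : ![v 0, v 1] i = v (ix i) := by
  fin_cases i <;> rfl

theorem iot_X (i : Fin 2) : iot (X i : S2 k) = X (ix i) := by
  fin_cases i <;> simp [iot, ix]

theorem gen_xy (v : Fin 4 → k) (i : Fin 2) (j : Fin 4) (hj : j = 0 ∨ j = 1) :
    C (v (ix i)) * X j - C (v j) * X (ix i) ∈ Ideal.span {iot (lin (v 0) (v 1))} := by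
  rw [Ideal.mem_span_singleton, iot_lin]
  rcases hj with rfl | rfl <;> fin_cases i
  · exact ⟨0, by simp [ix]⟩
  · exact ⟨1, by simp [ix]⟩
  · exact ⟨-1, by simp [ix]⟩
  · exact ⟨0, by simp [ix]⟩

theorem Pt.not_both (h : c₀ ≠ c₁) (hp : Pt c₀ c₁ P v) (h2 : v 2 = 0) (h3 : v 3 = 0) : False := by
  have e0 := hp.e0
  have e1 := hp.e1
  rw [h2, zero_pow (by norm_num)] at e0
  rw [h3, zero_pow (by norm_num)] at e1
  exact coprime_aux h hp.ne e0 e1

theorem Pt.locPrin_unram [CharZero k] (hp : Pt c₀ c₁ P v) (h2 : v 2 ≠ 0) (h3 : v 3 ≠ 0) :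
    LocPrin P (iot (lin (v 0) (v 1))) := by
  obtain ⟨i, hi⟩ := hp.ref
  have hi' : v (ix i) ≠ 0 := by rwa [← ix_v v i]
  refine locPrin_of hp.carrier hi' hp.lin_mem ?_
  have hJ : ∀ j, (j = 0 ∨ j = 1) → ∃ s : Pol k, s ∉ P.carrier ∧
      s * (C (v (ix i)) * X j - C (v j) * X (ix i)) ∈
        Ideal.span {iot (lin (v 0) (v 1))} ⊔ base (G0 c₀) (G1 c₁) := by
    intro j hj
    refine ⟨1, fun h => P.prime.ne_top ((Ideal.eq_top_iff_one _).mpr h), ?_⟩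
    rw [one_mul]
    exact Ideal.mem_sup_left (gen_xy v i j hj)
  intro j
  fin_cases j
  · exact hJ 0 (Or.inl rfl)
  · exact hJ 1 (Or.inr rfl)
  · refine ⟨_, hp.not_mem (eval_E4 v i 2 hi h2), ?_⟩
    have := zw_mem c₀ 2 v i (mem_r0 c₀ c₁) hp.ne hp.e0
    rwa [ix_v, iot_X] at this ⊢
  · refine ⟨_, hp.not_mem (eval_E4 v i 3 hi h3), ?_⟩
    have := zw_mem c₁ 3 v i (mem_r1 c₀ c₁) hp.ne hp.e1
    rwa [ix_v, iot_X] at this ⊢

theorem locPrin_ram [CharZero k] {I : Ideal (Pol k)} {P : PrimeDiv I} {v : Fin 4 → k}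
    (hP : P.carrier = ptIdeal v) (hne : v 0 ≠ 0 ∨ v 1 ≠ 0) {j j' : Fin 4} {c c' : k}
    (hjj : ∀ l : Fin 4, l = 0 ∨ l = 1 ∨ l = j ∨ l = j') (hc : c ^ 2 ≠ 4)
    (hr : iot (A2 c) - X j ^ 4 ∈ I) (hr' : iot (A2 c') - X j' ^ 4 ∈ I)
    (e0 : v 0 ^ 4 + c * v 0 ^ 2 * v 1 ^ 2 + v 1 ^ 4 = v j ^ 4)
    (e1 : v 0 ^ 4 + c' * v 0 ^ 2 * v 1 ^ 2 + v 1 ^ 4 = v j' ^ 4)
    (hj : v j = 0) (hj' : v j' ≠ 0) :
    LocPrin P (X j) ∧ ∃ B : S2 k, iot B ∉ P.carrier ∧
      A2 c = lin (v 0) (v 1) * B := by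
  have hnm : ∀ f : Pol k, eval v f ≠ 0 → f ∉ P.carrier := by
    intro f hf hfP
    rw [hP] at hfP
    exact hf (eval_ptIdeal' hfP)
  have hi : ∃ i : Fin 2, ![v 0, v 1] i ≠ 0 := by
    rcases hne with h | h
    · exact ⟨0, h⟩
    · exact ⟨1, h⟩
  obtain ⟨i, hi⟩ := hi
  have hi' : v (ix i) ≠ 0 := by rwa [← ix_v v i]
  have e0' : v 0 ^ 4 + c * v 0 ^ 2 * v 1 ^ 2 + v 1 ^ 4 = 0 := by
    rw [e0, hj, zero_pow (by norm_num)]
  obtain ⟨B, hB⟩ := (lin_dvd_A2_iff hne c).mpr e0'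
  have hBP : iot B ∉ P.carrier := by
    apply hnm
    rw [eval_iot]
    exact cofactor_ne hc hne e0' hB
  have hXj : X j ∈ P.carrier := by
    rw [hP]
    have h1 := gen_mem v j (ix i)
    rw [hj, C_0, zero_mul, sub_zero] at h1
    have h2 : (X j : Pol k) = C (v (ix i))⁻¹ * (C (v (ix i)) * X j) := by
      rw [← mul_assoc, ← C_mul, inv_mul_cancel₀ hi', C_1, one_mul]
    rw [h2]
    exact Ideal.mul_mem_left _ _ h1
  have hlin : ∀ f ∈ Ideal.span {iot (lin (v 0) (v 1))} ⊔ I,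
      iot B * f ∈ Ideal.span {(X j : Pol k)} ⊔ I := by
    intro f hf
    obtain ⟨a, ha, b, hb, rfl⟩ := Submodule.mem_sup.mp hf
    obtain ⟨g, rfl⟩ := Ideal.mem_span_singleton.mp ha
    have h3 : iot B * (iot (lin (v 0) (v 1)) * g + b) =
        X j * (X j ^ 3 * g) + ((iot (A2 c) - X j ^ 4) * g + iot B * b) := by
      rw [hB, map_mul]; ring
    rw [h3]
    exact Ideal.add_mem _ (Ideal.mem_sup_left (Ideal.mul_mem_right _ _
      (Ideal.mem_span_singleton_self _))) (Ideal.mem_sup_right (Ideal.add_mem _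
        (Ideal.mul_mem_right _ _ hr) (Ideal.mul_mem_left _ _ hb)))
  refine ⟨locPrin_of hP hi' hXj ?_, B, hBP, hB⟩
  intro l
  rcases hjj l with hl | hl | hl | hl
  · exact ⟨iot B, hBP, hlin _ (Ideal.mem_sup_left (gen_xy v i l (Or.inl hl)))⟩
  · exact ⟨iot B, hBP, hlin _ (Ideal.mem_sup_left (gen_xy v i l (Or.inr hl)))⟩
  · subst hl
    refine ⟨1, fun h => P.prime.ne_top ((Ideal.eq_top_iff_one _).mpr h), ?_⟩
    rw [one_mul, hj, C_0, zero_mul, sub_zero]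
    exact Ideal.mem_sup_left (Ideal.mul_mem_left _ _ (Ideal.mem_span_singleton_self _))
  · subst hl
    refine ⟨iot B * E4 (C (![v 0, v 1] i) * X l) (C (v l) * iot (X i)), ?_, ?_⟩
    · intro h
      rcases P.prime.mem_or_mem h with h | h
      · exact hBP h
      · exact hnm _ (eval_E4 v i l hi hj') h
    · have := zw_mem c' l v i hr' hne e1
      rw [ix_v, iot_X] at this ⊢
      rw [mul_assoc]
      exact hlin _ this

theorem Pt.locPrin_z [CharZero k] (hc : c₀ ^ 2 ≠ 4) (h : c₀ ≠ c₁) (hp : Pt c₀ c₁ P v)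
    (h2 : v 2 = 0) : LocPrin P (X 2) ∧ ∃ B : S2 k, iot B ∉ P.carrier ∧
      A2 c₀ = lin (v 0) (v 1) * B :=
  locPrin_ram hp.carrier hp.ne (j := 2) (j' := 3) (by decide) hc (mem_r0 c₀ c₁) (mem_r1 c₀ c₁)
    hp.e0 hp.e1 h2 (fun h3 => hp.not_both h h2 h3)

theorem Pt.locPrin_w [CharZero k] (hc : c₁ ^ 2 ≠ 4) (h : c₀ ≠ c₁) (hp : Pt c₀ c₁ P v)
    (h3 : v 3 = 0) : LocPrin P (X 3) ∧ ∃ B : S2 k, iot B ∉ P.carrier ∧
      A2 c₁ = lin (v 0) (v 1) * B :=
  locPrin_ram hp.carrier hp.ne (j := 3) (j' := 2) (by decide) hc (mem_r1 c₀ c₁) (mem_r0 c₀ c₁)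
    hp.e1 hp.e0 h3 (fun h2 => hp.not_both h h2 h3)

theorem Pt.exists_locPrin [CharZero k] (hc : c₀ ^ 2 ≠ 4) (hc1 : c₁ ^ 2 ≠ 4) (h : c₀ ≠ c₁)
    (hp : Pt c₀ c₁ P v) : ∃ π, LocPrin P π := by
  by_cases h2 : v 2 = 0
  · exact ⟨_, (hp.locPrin_z hc h h2).1⟩
  · by_cases h3 : v 3 = 0
    · exact ⟨_, (hp.locPrin_w hc1 h h3).1⟩
    · exact ⟨_, hp.locPrin_unram h2 h3⟩

theorem locPrin_smul {I : Ideal (Pol k)} {P : PrimeDiv I} {π π' : Pol k} {c : k} (hc : c ≠ 0)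
    (h : π = C c * π') (hπ : LocPrin P π) : LocPrin P π' := by
  have h1 : π' = C c⁻¹ * π := by
    rw [h, ← mul_assoc, ← C_mul, inv_mul_cancel₀ hc, C_1, one_mul]
  obtain ⟨h2, s, hs, h3⟩ := hπ
  refine ⟨by rw [h1]; exact Ideal.mul_mem_left _ _ h2, s, hs, fun f hf => ?_⟩
  have h4 : Ideal.span {π} ≤ Ideal.span {π'} := by
    rw [Ideal.span_singleton_le_span_singleton, h]
    exact Dvd.intro_left _ rfl
  exact sup_le_sup_right h4 _ (h3 f hf)

end

end CN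

end PicJump

end
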