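import Pool.Agent.Lib_helper43.PJ.W_CurveC

/-!
Normality of the base curve.
-/

noncomputable section

namespace PicJump

namespace CN

open MvPolynomial

section hom

attribute [local instance] MvPolynomial.gradedAlgebra

theorem hc_mul {σ : Type*} {k : Type*} [Field k] {L f : MvPolynomial σ k} {a : ℕ}
    (hL : L.IsHomogeneous a) (n : ℕ) : homogeneousComponent n (L * f) =
      if a ≤ n then L * homogeneousComponent (n - a) f else 0 := by
  have h := DirectSum.coe_decompose_mul_of_left_mem (homogeneousSubmodule σ k) (a := L) (b := f) n hL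
  have h1 : ∀ (g : MvPolynomial σ k) (m : ℕ),
      ((DirectSum.decompose (homogeneousSubmodule σ k) g m : MvPolynomial σ k)) =
        homogeneousComponent m g := fun g m => decomposition.decompose'_apply g m
  rw [h1, h1] at h
  exact h

end hom

variable {k : Type} [Field k]

theorem lin_homog (α β : k) : (lin α β).IsHomogeneous 1 := by
  unfold lin
  have h : ∀ i : Fin 2, (X i : S2 k).IsHomogeneous 1 := fun i => isHomogeneous_X _ _
  have h1 := (isHomogeneous_C (Fin 2) β).mul (h 0)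
  have h2 := (isHomogeneous_C (Fin 2) α).mul (h 1)
  rw [zero_add] at h1 h2
  exact h1.sub h2

theorem eval_scale {σ : Type*} {n : MvPolynomial σ k} {d : ℕ} (hn : n.IsHomogeneous d) (t : k)
    (x : σ → k) : eval (fun i => t * x i) n = t ^ d * eval x n := by
  rw [eval_eq, eval_eq, Finset.mul_sum]
  apply Finset.sum_congr rfl
  intro s hs
  have h1 : ∑ i ∈ s.support, s i = d := by
    have := hn (mem_support_iff.mp hs)
    rw [Finsupp.weight_apply, Finsupp.sum] at this
    simpa using this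
  simp only [mul_pow, Finset.prod_mul_distrib, Finset.prod_pow_eq_pow_sum, h1]
  ring

/-- a form in two variables of positive degree has a zero -/
theorem form_zero [IsAlgClosed k] {n : S2 k} {d : ℕ} (hn : n.IsHomogeneous (d + 1)) :
    ∃ α β : k, (α ≠ 0 ∨ β ≠ 0) ∧ eval ![α, β] n = 0 := by
  by_cases h : ∃ t : k, eval ![t, 1] n = 0
  · obtain ⟨t, ht⟩ := h
    exact ⟨t, 1, Or.inr one_ne_zero, ht⟩
  · push Not at h
    let p : Polynomial k := aeval ![Polynomial.X, 1] n
    have hp : ∀ t, p.eval t = eval ![t, 1] n := by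
      intro t
      have h1 : (Polynomial.aeval t).comp (aeval ![Polynomial.X, 1] : S2 k →ₐ[k] Polynomial k) =
          aeval ![t, 1] := by
        apply MvPolynomial.algHom_ext
        intro i
        fin_cases i <;> simp
      have h2 := congrArg (fun g => g n) h1
      simpa only [AlgHom.comp_apply, MvPolynomial.aeval_eq_eval, Polynomial.coe_aeval_eq_eval]
        using h2
    have hdeg : p.degree = 0 := by
      by_contra hd
      obtain ⟨t, ht⟩ := IsAlgClosed.exists_root p hd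
      exact h t (by rw [← hp]; exact ht)
    have hC := Polynomial.eq_C_of_degree_eq_zero hdeg
    set c := p.coeff 0 with hc
    have h3 : ∀ t, eval ![t, 1] n = c := by
      intro t
      rw [← hp, hC, Polynomial.eval_C]
    have h4 : (n - C c * X 1 ^ (d + 1)) * X 1 = 0 := by
      apply MvPolynomial.funext
      intro x
      rw [map_zero, map_mul, eval_X]
      by_cases hx : x 1 = 0
      · rw [hx, mul_zero]
      · have h5 : eval x n = x 1 ^ (d + 1) * eval ![x 0 / x 1, 1] n := by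
          have h6 : (fun i => x 1 * ![x 0 / x 1, 1] i) = x := by
            funext i
            fin_cases i
            · simp [mul_div_cancel₀ _ hx]
            · simp
          rw [← eval_scale hn, h6]
        rw [map_sub, h5, h3, map_mul, eval_C, map_pow, eval_X]
        ring
    rcases mul_eq_zero.mp h4 with h5 | h5
    · refine ⟨1, 0, Or.inl one_ne_zero, ?_⟩
      rw [sub_eq_zero] at h5
      rw [h5]
      simp
    · exact absurd h5 (X_ne_zero _)

theorem eval_res (α β t : k) (n : S2 k) : (res α β n).eval t = eval ![t * α, t * β] n := by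
  have h1 : (Polynomial.aeval t).comp (res α β) = aeval ![t * α, t * β] := by
    apply MvPolynomial.algHom_ext
    intro i
    fin_cases i <;> simp [res] <;> ring
  have h2 := congrArg (fun g => g n) h1
  simpa only [AlgHom.comp_apply, MvPolynomial.aeval_eq_eval, Polynomial.coe_aeval_eq_eval]
    using h2

theorem res_eq_zero [IsAlgClosed k] {α β : k} {n : S2 k} {d : ℕ} (hn : n.IsHomogeneous d)
    (h : eval ![α, β] n = 0) : res α β n = 0 := by
  apply Polynomial.funext
  intro t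
  have h1 : ![t * α, t * β] = fun i => t * ![α, β] i := by
    funext i
    fin_cases i <;> rfl
  rw [eval_res, h1, eval_scale hn, h, mul_zero, Polynomial.eval_zero]

theorem vdm [IsAlgClosed k] [CharZero k] {a : k} (ha : a ≠ 0) {m : Fin 4 → k}
    (h : ∀ z : k, z ^ 4 = a → ∑ i, m i * z ^ (i : ℕ) = 0) (i : Fin 4) : m i = 0 := by
  obtain ⟨z, hz⟩ := IsAlgClosed.exists_pow_nat_eq a (n := 4) (by norm_num)
  obtain ⟨I, hI⟩ := IsAlgClosed.exists_pow_nat_eq (-1 : k) (n := 2) (by norm_num)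
  have hz0 : z ≠ 0 := by
    rintro rfl
    exact ha (by rw [← hz]; simp)
  have hI4 : I ^ 4 = 1 := by
    rw [show I ^ 4 = (I ^ 2) ^ 2 by ring, hI]; norm_num
  have e0 := h z hz
  have e1 := h (I * z) (by rw [mul_pow, hI4, hz, one_mul])
  have e2 := h (-z) (by rw [neg_pow, hz]; norm_num)
  have e3 := h (-(I * z)) (by rw [neg_pow, mul_pow, hI4, hz]; norm_num)
  simp only [Fin.sum_univ_four, Fin.val_zero, Fin.val_one, Fin.val_two, Fin.isValue,
    show ((3 : Fin 4) : ℕ) = 3 from rfl, pow_zero, pow_one, mul_one] at e0 e1 e2 e3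
  have h0 : m 0 = 0 := by
    linear_combination (e0 + e1 + e2 + e3) / 4 - (m 2 * z ^ 2 / 2) * hI
  have h2 : m 2 = 0 := by
    have : m 2 * z ^ 2 = 0 := by
      linear_combination (e0 - e1 + e2 - e3) / 4 + (m 2 * z ^ 2 / 2) * hI
    exact (mul_eq_zero.mp this).resolve_right (pow_ne_zero _ hz0)
  have h1 : m 1 = 0 := by
    have : m 1 * z = 0 := by
      linear_combination (e0 - e2 - I * (e1 - e3)) / 4 + (m 1 * z / 2 + m 3 * z ^ 3 * (I ^ 2 - 1) / 2) * hI
    exact (mul_eq_zero.mp this).resolve_right hz0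
  have h3 : m 3 = 0 := by
    have : m 3 * z ^ 3 = 0 := by
      linear_combination (e0 - e2 + I * (e1 - e3)) / 4 - (m 1 * z / 2 + m 3 * z ^ 3 * (I ^ 2 - 1) / 2) * hI
    exact (mul_eq_zero.mp this).resolve_right (pow_ne_zero _ hz0)
  fin_cases i
  · exact h0
  · exact h1
  · exact h2
  · exact h3

/-- `f` vanishes to order `n` along `P` -/
def Van {I : Ideal (Pol k)} (P : PrimeDiv I) (n : ℕ) (f : Pol k) : Prop :=
  ∃ s : Pol k, s ∉ P.carrier ∧ s * f ∈ P.carrier ^ n ⊔ I

section van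

variable {I : Ideal (Pol k)} {P : PrimeDiv I} {n : ℕ} {f g : Pol k}

theorem Van.add (hf : Van P n f) (hg : Van P n g) : Van P n (f + g) := by
  obtain ⟨s, hs, h1⟩ := hf
  obtain ⟨t, ht, h2⟩ := hg
  refine ⟨s * t, fun h => (P.prime.mem_or_mem h).elim hs ht, ?_⟩
  have : s * t * (f + g) = t * (s * f) + s * (t * g) := by ring
  rw [this]
  exact Ideal.add_mem _ (Ideal.mul_mem_left _ _ h1) (Ideal.mul_mem_left _ _ h2)

theorem Van.mul (hf : Van P n f) (g : Pol k) : Van P n (g * f) := by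
  obtain ⟨s, hs, h1⟩ := hf
  refine ⟨s, hs, ?_⟩
  have : s * (g * f) = g * (s * f) := by ring
  rw [this]
  exact Ideal.mul_mem_left _ _ h1

theorem Van.of_mem (hf : f ∈ I) : Van P n f :=
  ⟨1, fun h => P.prime.ne_top ((Ideal.eq_top_iff_one _).mpr h), by
    rw [one_mul]; exact Ideal.mem_sup_right hf⟩

theorem Van.sub (hf : Van P n f) (hg : Van P n g) : Van P n (f - g) := by
  have := hf.add (hg.mul (-1))
  rwa [neg_one_mul, ← sub_eq_add_neg] at this

theorem Van.mono {m : ℕ} (hf : Van P n f) (h : m ≤ n) : Van P m f := by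
  obtain ⟨s, hs, h1⟩ := hf
  have h2 : P.carrier ^ n ⊔ I ≤ P.carrier ^ m ⊔ I :=
    sup_le_sup_right (Ideal.pow_le_pow_right h) _
  exact ⟨s, hs, h2 h1⟩

theorem Van.mem (hf : Van P (n + 1) f) : f ∈ P.carrier := by
  obtain ⟨s, hs, h1⟩ := hf
  have h2 : P.carrier ^ (n + 1) ⊔ I ≤ P.carrier := by
    refine sup_le ?_ P.lt.le
    exact Ideal.pow_le_self (Nat.succ_ne_zero n)
  exact (P.prime.mem_or_mem (h2 h1)).resolve_left hs

theorem Van.of_mul (hI : I.IsPrime) {π : Pol k} (hπ : LocPrin P π) (hf : Van P (n + 1) (π * f)) :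
    Van P n f := by
  by_cases hfI : f ∈ I
  · exact Van.of_mem hfI
  · have hπI : π ∉ I := by
      intro h
      obtain ⟨h1, s, hs, h2⟩ := hπ
      apply P.lt.not_ge
      intro g hg
      have h3 := h2 g hg
      have h4 : Ideal.span {π} ⊔ I ≤ I := sup_le ((Ideal.span_singleton_le_iff_mem _).mpr h) le_rfl
      rcases hI.mem_or_mem (h4 h3) with h5 | h5
      · exact absurd (P.lt.le h5) hs
      · exact h5
    have hπf : π * f ∉ I := fun h => (hI.mem_or_mem h).elim hπI hfI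
    have h1 := (hπ.van_iff hI hπf (n + 1)).mp hf
    rw [hπ.ord_mul hI hπI hfI, hπ.ord_self hI] at h1
    exact (hπ.van_iff hI hfI n).mpr (by omega)

end van

/-- `sum_j f_j x_l^j` -/
def row (l : Fin 4) (f : Fin 4 → S2 k) : Pol k := ∑ j, iot (f j) * X l ^ (j : ℕ)

theorem row_dvd {α β : k} (l : Fin 4) {f : Fin 4 → S2 k} (hf : ∀ j, lin α β ∣ f j) :
    iot (lin α β) ∣ row l f := by
  unfold row
  apply Finset.dvd_sum
  intro j _
  obtain ⟨g, hg⟩ := hf j
  rw [hg, map_mul]
  exact ⟨iot g * X l ^ (j : ℕ), by ring⟩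

theorem eval_row (v : Fin 4 → k) (t : k) (l : Fin 4) (f : Fin 4 → S2 k) :
    eval (fun i => t * v i) (row l f) =
      ∑ j, (res (v 0) (v 1) (f j)).eval t * (t * v l) ^ (j : ℕ) := by
  unfold row
  rw [map_sum]
  apply Finset.sum_congr rfl
  intro j _
  rw [map_mul, map_pow, eval_X, eval_iot, eval_res]

theorem poly_zero [CharZero k] {p : Polynomial k} (h : ∀ t, t ≠ 0 → p.eval t = 0) : p = 0 := by
  have h1 : p * Polynomial.X = 0 := by
    apply Polynomial.funext
    intro t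
    rw [Polynomial.eval_mul, Polynomial.eval_X, Polynomial.eval_zero]
    by_cases ht : t = 0
    · rw [ht, mul_zero]
    · rw [h t ht, zero_mul]
  exact (mul_eq_zero.mp h1).resolve_right Polynomial.X_ne_zero

/-- The points above a branch point. -/
structure Ram {I : Ideal (Pol k)} (α β A' : k) (l l' : Fin 4) (P : PrimeDiv I) (w : k) : Prop where
  hw : w ^ 4 = A'
  v : ∃ v : Fin 4 → k, P.carrier = ptIdeal v ∧ v 0 = α ∧ v 1 = β ∧ v l = w ∧ v l' = 0
  lp : LocPrin P (X l')
  lv : Van P 4 (iot (lin α β))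

section ram

variable [IsAlgClosed k] [CharZero k] {I : Ideal (Pol k)} (hI : I.IsPrime) {α β A' : k}
  {l l' : Fin 4}

theorem ram_step (hne : α ≠ 0 ∨ β ≠ 0) (hA : A' ≠ 0)
    (hex : ∀ w : k, w ^ 4 = A' → ∃ P : PrimeDiv I, Ram α β A' l l' P w)
    {f : Fin 4 → S2 k} {r : Pol k}
    (hV : ∀ (P : PrimeDiv I) (w : k), Ram α β A' l l' P w → Van P 1 (row l f + X l' * r)) :
    ∀ j, lin α β ∣ f j := by
  intro j
  rw [lin_dvd_iff hne]
  apply poly_zero
  intro t ht
  have h1 : ∀ w : k, w ^ 4 = A' → ∑ j, (res α β (f j)).eval t * t ^ (j : ℕ) * w ^ (j : ℕ) = 0 := by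
    intro w hw
    obtain ⟨P, hP⟩ := hex w hw
    obtain ⟨v, hv, v0, v1, vl, vl'⟩ := hP.v
    have h2 := (hV P w hP).mem
    rw [hv] at h2
    have h3 := eval_ptIdeal h2 t
    rw [map_add, map_mul, eval_X, vl', mul_zero, zero_mul, add_zero, eval_row, v0, v1, vl] at h3
    rw [← h3]
    apply Finset.sum_congr rfl
    intro j _
    rw [mul_pow]; ring
  have h4 := vdm hA h1 j
  exact (mul_eq_zero.mp h4).resolve_right (pow_ne_zero _ ht)

include hI in
theorem ram_case (hne : α ≠ 0 ∨ β ≠ 0) (hA : A' ≠ 0)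
    (hex : ∀ w : k, w ^ 4 = A' → ∃ P : PrimeDiv I, Ram α β A' l l' P w)
    {f0 f1 f2 f3 : Fin 4 → S2 k}
    (hV : ∀ (P : PrimeDiv I) (w : k), Ram α β A' l l' P w → Van P 4 (row l f0 + X l' *
      (row l f1 + X l' * (row l f2 + X l' * row l f3)))) :
    (∀ j, lin α β ∣ f0 j) ∧ (∀ j, lin α β ∣ f1 j) ∧ (∀ j, lin α β ∣ f2 j) ∧
      (∀ j, lin α β ∣ f3 j) := by
  have step : ∀ {f : Fin 4 → S2 k} {r : Pol k} {n : ℕ}, n ≤ 3 →
      (∀ (P : PrimeDiv I) (w : k), Ram α β A' l l' P w → Van P (n + 1) (row l f + X l' * r)) →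
      (∀ j, lin α β ∣ f j) ∧
        (∀ (P : PrimeDiv I) (w : k), Ram α β A' l l' P w → Van P n r) := by
    intro f r n hn h
    have h1 := ram_step hne hA hex (fun P w hP => (h P w hP).mono (by omega : 1 ≤ n + 1))
    refine ⟨h1, fun P w hP => ?_⟩
    obtain ⟨g, hg⟩ := row_dvd l h1
    have h2 : Van P (n + 1) (row l f) := by
      rw [hg, mul_comm]
      exact (hP.lv.mono (by omega)).mul _
    have h3 := (h P w hP).sub h2
    rw [add_sub_cancel_left] at h3
    exact h3.of_mul hI hP.lp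
  obtain ⟨a0, b0⟩ := step (le_refl 3) hV
  obtain ⟨a1, b1⟩ := step (by norm_num : 2 ≤ 3) b0
  obtain ⟨a2, b2⟩ := step (by norm_num : 1 ≤ 3) b1
  have a3 := ram_step hne hA hex (f := f3) (r := 0) (fun P w hP => by
    rw [mul_zero, add_zero]; exact b2 P w hP)
  exact ⟨a0, a1, a2, a3⟩

end ram

theorem nf_row3 (m : Fin 4 × Fin 4 → S2 k) : nf m = row 3 (fun j => m (0, j)) + X 2 *
    (row 3 (fun j => m (1, j)) + X 2 * (row 3 (fun j => m (2, j)) +
      X 2 * row 3 (fun j => m (3, j)))) := by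
  simp only [nf, row, Fintype.sum_prod_type, Fin.sum_univ_four, Fin.val_zero, Fin.val_one,
    Fin.val_two, Fin.isValue, show ((3 : Fin 4) : ℕ) = 3 from rfl]
  ring

theorem nf_row2 (m : Fin 4 × Fin 4 → S2 k) : nf m = row 2 (fun j => m (j, 0)) + X 3 *
    (row 2 (fun j => m (j, 1)) + X 3 * (row 2 (fun j => m (j, 2)) +
      X 3 * row 2 (fun j => m (j, 3)))) := by
  simp only [nf, row, Fintype.sum_prod_type, Fin.sum_univ_four, Fin.val_zero, Fin.val_one,
    Fin.val_two, Fin.isValue, show ((3 : Fin 4) : ℕ) = 3 from rfl]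
  ring

section curve

variable [IsAlgClosed k] [CharZero k] {c₀ c₁ : k}

theorem iot_not_mem (h : c₀ ≠ c₁) (h0 : c₀ ^ 2 ≠ 4) (h1 : c₁ ^ 2 ≠ 4) {n : S2 k} (hn : n ≠ 0) :
    iot n ∉ base (G0 c₀) (G1 c₁) := by
  intro h2
  have h3 : nf (Pi.single (0, 0) n) = iot n := by rw [nf_single]; simp
  rw [← h3] at h2
  have h4 := nf_unique h h0 h1 h2
  have h5 := congrFun h4 (0, 0)
  rw [Pi.single_eq_same] at h5
  exact hn h5

/-- the point with the given coordinates -/
theorem exists_P (h : c₀ ≠ c₁) (h0 : c₀ ^ 2 ≠ 4) (h1 : c₁ ^ 2 ≠ 4) {v : Fin 4 → k}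
    (hne : v 0 ≠ 0 ∨ v 1 ≠ 0)
    (e0 : v 0 ^ 4 + c₀ * v 0 ^ 2 * v 1 ^ 2 + v 1 ^ 4 = v 2 ^ 4)
    (e1 : v 0 ^ 4 + c₁ * v 0 ^ 2 * v 1 ^ 2 + v 1 ^ 4 = v 3 ^ 4) :
    ∃ P : PrimeDiv (base (G0 c₀) (G1 c₁)), Pt c₀ c₁ P v := by
  obtain ⟨P, hP⟩ := exists_pt h h0 h1 v (by
    rintro rfl
    rcases hne with h2 | h2 <;> exact h2 rfl) (by
      simp only [G0, map_sub, map_add, map_mul, map_pow, eval_X, eval_C]
      linear_combination e0) (by
      simp only [G1, map_sub, map_add, map_mul, map_pow, eval_X, eval_C]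
      linear_combination e1)
  exact ⟨P, hne, e0, e1, hP⟩

omit [IsAlgClosed k] [CharZero k] in
theorem van_lin {P : PrimeDiv (base (G0 c₀) (G1 c₁))}
    {α β : k} {j : Fin 4} {c : k} (hr : iot (A2 c) - X j ^ 4 ∈ base (G0 c₀) (G1 c₁))
    (hj : (X j : Pol k) ∈ P.carrier) {B : S2 k} (hB : iot B ∉ P.carrier)
    (hAB : A2 c = lin α β * B) : Van P 4 (iot (lin α β)) := by
  refine ⟨iot B, hB, ?_⟩
  have h1 : iot B * iot (lin α β) = X j ^ 4 + (iot (A2 c) - X j ^ 4) := by
    rw [hAB, map_mul]; ring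
  rw [h1]
  exact Ideal.add_mem _ (Ideal.mem_sup_left (Ideal.pow_mem_pow hj 4)) (Ideal.mem_sup_right hr)

theorem lin_step (h : c₀ ≠ c₁) (h0 : c₀ ^ 2 ≠ 4) (h1 : c₁ ^ 2 ≠ 4) {α β : k}
    (hne : α ≠ 0 ∨ β ≠ 0) {M : Pol k} (hM : M ∉ base (G0 c₀) (G1 c₁))
    (hord : ∀ P : PrimeDiv (base (G0 c₀) (G1 c₁)), ord P (iot (lin α β)) ≤ ord P M) :
    M ∈ Ideal.span {iot (lin α β)} ⊔ base (G0 c₀) (G1 c₁) := by
  have hI := base_prime h h0 h1
  obtain ⟨m, hm⟩ := nf_exists c₀ c₁ M
  have hlinI : iot (lin α β) ∉ base (G0 c₀) (G1 c₁) :=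
    iot_not_mem h h0 h1 (lin_prime hne).ne_zero
  -- vanishing of the normal form
  have hvan : ∀ (P : PrimeDiv (base (G0 c₀) (G1 c₁))) (n : ℕ), Van P n (iot (lin α β)) →
      Van P n (nf m) := by
    intro P n hn
    obtain ⟨π, hπ⟩ := curve_locPrin h h0 h1 P
    have h2 := (hπ.van_iff hI hlinI n).mp hn
    have h3 : Van P n M := (hπ.van_iff hI hM n).mpr (h2.trans (hord P))
    have h4 : Van P n (M - nf m) := Van.of_mem hm
    have h5 := h3.sub h4
    rwa [sub_sub_cancel] at h5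
  have hdvd : ∀ e, lin α β ∣ m e := by
    by_cases z0 : α ^ 4 + c₀ * α ^ 2 * β ^ 2 + β ^ 4 = 0
    · -- ramified in z
      have z1 : α ^ 4 + c₁ * α ^ 2 * β ^ 2 + β ^ 4 ≠ 0 := fun z1 => coprime_aux h hne z0 z1
      have hex : ∀ w : k, w ^ 4 = α ^ 4 + c₁ * α ^ 2 * β ^ 2 + β ^ 4 →
          ∃ P : PrimeDiv (base (G0 c₀) (G1 c₁)),
            Ram α β (α ^ 4 + c₁ * α ^ 2 * β ^ 2 + β ^ 4) 3 2 P w := by
        intro w hw
        obtain ⟨P, hP⟩ := exists_P h h0 h1 (v := ![α, β, 0, w]) hne (by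
          simp [z0]) (by simp [hw])
        obtain ⟨h2, B, h3, h4⟩ := hP.locPrin_z h0 h rfl
        exact ⟨P, hw, ⟨_, hP.carrier, rfl, rfl, rfl, rfl⟩, h2,
          van_lin (mem_r0 c₀ c₁) h2.1 h3 h4⟩
      obtain ⟨a0, a1, a2, a3⟩ := ram_case hI hne z1 hex (f0 := fun j => m (0, j))
        (f1 := fun j => m (1, j)) (f2 := fun j => m (2, j)) (f3 := fun j => m (3, j))
        (fun P w hP => by
          rw [← nf_row3]
          exact hvan P 4 hP.lv)
      rintro ⟨i, j⟩
      fin_cases i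
      · exact a0 j
      · exact a1 j
      · exact a2 j
      · exact a3 j
    · by_cases z1 : α ^ 4 + c₁ * α ^ 2 * β ^ 2 + β ^ 4 = 0
      · -- ramified in w
        have hex : ∀ w : k, w ^ 4 = α ^ 4 + c₀ * α ^ 2 * β ^ 2 + β ^ 4 →
            ∃ P : PrimeDiv (base (G0 c₀) (G1 c₁)),
              Ram α β (α ^ 4 + c₀ * α ^ 2 * β ^ 2 + β ^ 4) 2 3 P w := by
          intro w hw
          obtain ⟨P, hP⟩ := exists_P h h0 h1 (v := ![α, β, w, 0]) hne (by
            simp [hw]) (by simp [z1])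
          obtain ⟨h2, B, h3, h4⟩ := hP.locPrin_w h1 h rfl
          exact ⟨P, hw, ⟨_, hP.carrier, rfl, rfl, rfl, rfl⟩, h2,
            van_lin (mem_r1 c₀ c₁) h2.1 h3 h4⟩
        obtain ⟨a0, a1, a2, a3⟩ := ram_case hI hne z0 hex (f0 := fun j => m (j, 0))
          (f1 := fun j => m (j, 1)) (f2 := fun j => m (j, 2)) (f3 := fun j => m (j, 3))
          (fun P w hP => by
            rw [← nf_row2]
            exact hvan P 4 hP.lv)
        rintro ⟨i, j⟩
        fin_cases j
        · exact a0 i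
        · exact a1 i
        · exact a2 i
        · exact a3 i
      · -- unramified
        intro e
        rw [lin_dvd_iff hne]
        apply poly_zero
        intro t ht
        have h2 : ∀ z w : k, z ^ 4 = α ^ 4 + c₀ * α ^ 2 * β ^ 2 + β ^ 4 →
            w ^ 4 = α ^ 4 + c₁ * α ^ 2 * β ^ 2 + β ^ 4 →
            ∑ i : Fin 4, (∑ j : Fin 4, (res α β (m (i, j))).eval t * t ^ (i : ℕ) * t ^ (j : ℕ) *
              w ^ (j : ℕ)) * z ^ (i : ℕ) = 0 := by
          intro z w hz hw
          obtain ⟨P, hP⟩ := exists_P h h0 h1 (v := ![α, β, z, w]) hne (by simp [hz]) (by simp [hw])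
          have h3 : Van P (0 + 1) (nf m) := by
            apply hvan P (0 + 1)
            refine ⟨1, fun h => P.prime.ne_top ((Ideal.eq_top_iff_one _).mpr h), ?_⟩
            rw [one_mul, zero_add, pow_one]
            exact Ideal.mem_sup_left hP.lin_mem
          have h4 := h3.mem
          rw [hP.carrier] at h4
          have h5 := eval_ptIdeal h4 t
          rw [nf, map_sum, Fintype.sum_prod_type] at h5
          rw [← h5]
          apply Finset.sum_congr rfl
          intro i _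
          rw [Finset.sum_mul]
          apply Finset.sum_congr rfl
          intro j _
          rw [map_mul, map_mul, map_pow, map_pow, eval_X, eval_X, eval_iot, eval_res]
          simp only [Matrix.cons_val]
          ring
        obtain ⟨i, j⟩ := e
        have h3 : ∀ w : k, w ^ 4 = α ^ 4 + c₁ * α ^ 2 * β ^ 2 + β ^ 4 →
            ∑ j : Fin 4, (res α β (m (i, j))).eval t * t ^ (i : ℕ) * t ^ (j : ℕ) *
              w ^ (j : ℕ) = 0 := fun w hw => vdm z0 (fun z hz => h2 z w hz hw) i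
        have h4 := vdm z1 h3 j
        rw [mul_assoc] at h4
        exact (mul_eq_zero.mp h4).resolve_right (mul_ne_zero (pow_ne_zero _ ht) (pow_ne_zero _ ht))
  have h2 : nf m ∈ Ideal.span {iot (lin α β)} := by
    unfold nf
    apply Ideal.sum_mem
    intro e _
    obtain ⟨g, hg⟩ := hdvd e
    rw [hg, map_mul, mul_assoc]
    exact Ideal.mul_mem_right _ _ (Ideal.mem_span_singleton_self _)
  have h3 : M = nf m + (M - nf m) := by ring
  rw [h3]
  exact Ideal.add_mem _ (Ideal.mem_sup_left h2) (Ideal.mem_sup_right hm)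

theorem form_step (h : c₀ ≠ c₁) (h0 : c₀ ^ 2 ≠ 4) (h1 : c₁ ^ 2 ≠ 4) (d : ℕ) :
    ∀ (n : S2 k), n ≠ 0 → n.IsHomogeneous d → ∀ M : Pol k, M ∉ base (G0 c₀) (G1 c₁) →
      (∀ P : PrimeDiv (base (G0 c₀) (G1 c₁)), ord P (iot n) ≤ ord P M) →
      M ∈ Ideal.span {iot n} ⊔ base (G0 c₀) (G1 c₁) := by
  have hI := base_prime h h0 h1
  induction d with
  | zero =>
    intro n hn hd M hM _
    have h2 : n = C (coeff 0 n) := by
      have h3 := homogeneousComponent_eq_self hd
      rw [homogeneousComponent_zero] at h3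
      exact h3.symm
    have h3 : coeff 0 n ≠ 0 := by
      intro h4
      rw [h4, C_0] at h2
      exact hn h2
    generalize coeff 0 n = a at h2 h3
    subst h2
    have hC : iot (C a) = C a := by simp [iot, MvPolynomial.algebraMap_eq]
    have h4 : M = iot (C a) * (C a⁻¹ * M) := by
      rw [hC, ← mul_assoc, ← C_mul, mul_inv_cancel₀ h3, C_1, one_mul]
    rw [h4]
    exact Ideal.mem_sup_left (Ideal.mul_mem_right _ _ (Ideal.mem_span_singleton_self _))
  | succ d ih =>
    intro n hn hd M hM hord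
    obtain ⟨α, β, hne, hev⟩ := form_zero hd
    obtain ⟨n', hn'⟩ := (lin_dvd_iff hne n).mpr (res_eq_zero hd hev)
    have hn'0 : n' ≠ 0 := by
      rintro rfl
      exact hn (by rw [hn', mul_zero])
    have hlin := (lin_prime hne).ne_zero
    have hd' : n'.IsHomogeneous d := by
      have h2 := homogeneousComponent_eq_self hd
      rw [hn', hc_mul (lin_homog α β), if_pos (by omega), Nat.add_sub_cancel] at h2
      have h3 := mul_left_cancel₀ hlin h2
      rw [← h3]
      exact homogeneousComponent_isHomogeneous _ _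
    have hlinI := iot_not_mem h h0 h1 hlin
    have hn'I := iot_not_mem h h0 h1 hn'0
    have h2 : ∀ P : PrimeDiv (base (G0 c₀) (G1 c₁)), ord P (iot n) =
        ord P (iot (lin α β)) + ord P (iot n') := by
      intro P
      obtain ⟨π, hπ⟩ := curve_locPrin h h0 h1 P
      rw [hn', map_mul, hπ.ord_mul hI hlinI hn'I]
    have h3 := lin_step h h0 h1 hne hM (fun P => by
      have := hord P
      rw [h2] at this
      omega)
    obtain ⟨a, ha, b, hb, hab⟩ := Submodule.mem_sup.mp h3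
    obtain ⟨M', rfl⟩ := Ideal.mem_span_singleton.mp ha
    have hM' : M' ∉ base (G0 c₀) (G1 c₁) := by
      intro h4
      apply hM
      rw [← hab]
      exact Ideal.add_mem _ (Ideal.mul_mem_left _ _ h4) hb
    have h4 : ∀ P : PrimeDiv (base (G0 c₀) (G1 c₁)), ord P (iot n') ≤ ord P M' := by
      intro P
      obtain ⟨π, hπ⟩ := curve_locPrin h h0 h1 P
      have h5 : ord P M = ord P (iot (lin α β) * M') := by
        apply ord_congr
        rw [← hab, add_sub_cancel_left]
        exact hb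
      have h6 := hord P
      rw [h5, hπ.ord_mul hI hlinI hM', h2] at h6
      omega
    have h5 := ih n' hn'0 hd' M' hM' h4
    obtain ⟨a', ha', b', hb', hab'⟩ := Submodule.mem_sup.mp h5
    obtain ⟨M'', rfl⟩ := Ideal.mem_span_singleton.mp ha'
    have h6 : M = iot n * M'' + (iot (lin α β) * b' + b) := by
      rw [← hab, ← hab', hn', map_mul]; ring
    rw [h6]
    exact Ideal.add_mem _ (Ideal.mem_sup_left (Ideal.mul_mem_right _ _
      (Ideal.mem_span_singleton_self _))) (Ideal.mem_sup_right (Ideal.add_mem _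
        (Ideal.mul_mem_left _ _ hb') hb))

omit [IsAlgClosed k] [CharZero k] in
theorem iot_rename (s : S2 k) : iot s = rename ix s := by
  have h : (iot : S2 k →ₐ[k] Pol k) = rename ix := by
    apply MvPolynomial.algHom_ext
    intro i
    rw [iot_X, rename_X]
  rw [h]

theorem exists_mult_aux {S R ι : Type*} [CommRing S] [Nontrivial S] [CommRing R] [IsDomain R]
    [Finite ι] (φ : S →+* R) (g : ι → R) (hg : ∀ r, ∃ c : ι → S, r = ∑ᶠ i, φ (c i) * g i) {x : R}
    (hx : x ≠ 0) : ∃ s : S, s ≠ 0 ∧ ∃ y, φ s = x * y := by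
  have := Fintype.ofFinite ι
  let _ : Algebra S R := φ.toAlgebra
  have hfin : Module.Finite S R := by
    classical
    refine ⟨⟨Finset.univ.image g, ?_⟩⟩
    rw [eq_top_iff]
    rintro r -
    obtain ⟨c, hc⟩ := hg r
    rw [hc, finsum_eq_sum_of_fintype]
    apply Submodule.sum_mem
    intro i _
    have h1 : φ (c i) * g i = c i • g i := (Algebra.smul_def _ _).symm
    rw [h1]
    apply Submodule.smul_mem
    apply Submodule.subset_span
    rw [Finset.coe_image]
    exact ⟨i, Finset.mem_coe.mpr (Finset.mem_univ i), rfl⟩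
  have hint : Algebra.IsIntegral S R := Algebra.IsIntegral.of_finite _ _
  have h2 := Ideal.comap_ne_bot_of_integral_mem (R := S) (I := Ideal.span {x}) hx
    (Ideal.mem_span_singleton_self x) (Algebra.IsIntegral.isIntegral x)
  obtain ⟨n₀, hn₀, hn₀'⟩ := Submodule.exists_mem_ne_zero_of_ne_bot h2
  rw [Ideal.mem_comap, Ideal.mem_span_singleton] at hn₀
  obtain ⟨y, hy⟩ := hn₀
  exact ⟨n₀, hn₀', y, hy⟩

/-- every form has a multiple in `k[x,y]` -/
theorem exists_multiple (h : c₀ ≠ c₁) (h0 : c₀ ^ 2 ≠ 4) (h1 : c₁ ^ 2 ≠ 4) {B : Pol k} {e : ℕ}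
    (hB : B.IsHomogeneous e) (hBI : B ∉ base (G0 c₀) (G1 c₁)) :
    ∃ (n : S2 k) (d : ℕ) (B' : Pol k), n ≠ 0 ∧ n.IsHomogeneous d ∧
      iot n - B * B' ∈ base (G0 c₀) (G1 c₁) := by
  have hI := base_prime h h0 h1
  have hdom : IsDomain (Pol k ⧸ base (G0 c₀) (G1 c₁)) := (Ideal.Quotient.isDomain_iff_prime _).mpr hI
  obtain ⟨n₀, hn₀', y, hy⟩ := exists_mult_aux
    ((Ideal.Quotient.mk (base (G0 c₀) (G1 c₁))).comp (iot : S2 k →ₐ[k] Pol k).toRingHom)
    (fun e : Fin 4 × Fin 4 =>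
      Ideal.Quotient.mk (base (G0 c₀) (G1 c₁)) (X 2 ^ (e.1 : ℕ) * X 3 ^ (e.2 : ℕ))) (by
      intro r
      obtain ⟨f, rfl⟩ := Ideal.Quotient.mk_surjective r
      obtain ⟨m, hm⟩ := nf_exists c₀ c₁ f
      rw [← Ideal.Quotient.eq_zero_iff_mem, map_sub, sub_eq_zero] at hm
      refine ⟨m, ?_⟩
      rw [hm, nf, map_sum, finsum_eq_sum_of_fintype]
      apply Finset.sum_congr rfl
      intro e _
      rw [map_mul]
      rfl) (x := Ideal.Quotient.mk _ B) (by
      rw [Ne, Ideal.Quotient.eq_zero_iff_mem]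
      exact hBI)
  obtain ⟨B₀, rfl⟩ := Ideal.Quotient.mk_surjective y
  have hy' : Ideal.Quotient.mk (base (G0 c₀) (G1 c₁)) (iot n₀) =
    Ideal.Quotient.mk _ B * Ideal.Quotient.mk _ B₀ := hy
  clear hy
  rename' hy' => hy
  rw [← map_mul, Ideal.Quotient.mk_eq_mk_iff_sub_mem] at hy
  have h3 : ∃ d, homogeneousComponent d n₀ ≠ 0 := by
    by_contra h3
    push Not at h3
    apply hn₀'
    rw [← sum_homogeneousComponent n₀]
    exact Finset.sum_eq_zero (fun i _ => h3 i)
  obtain ⟨d, hd⟩ := h3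
  have h4 := base_homog c₀ c₁ _ hy d
  rw [map_sub, hc_mul hB, iot_rename, ← rename_homogeneousComponent, ← iot_rename] at h4
  by_cases hde : e ≤ d
  · rw [if_pos hde] at h4
    exact ⟨_, d, _, hd, homogeneousComponent_isHomogeneous _ _, h4⟩
  · rw [if_neg hde, sub_zero] at h4
    exact absurd h4 (iot_not_mem h h0 h1 hd)

theorem curve_normal' (h : c₀ ≠ c₁) (h0 : c₀ ^ 2 ≠ 4) (h1 : c₁ ^ 2 ≠ 4) (M B : Pol k) (e : ℕ)
    (hB : B.IsHomogeneous e) (hMI : M ∉ base (G0 c₀) (G1 c₁)) (hBI : B ∉ base (G0 c₀) (G1 c₁))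
    (hord : ∀ P : PrimeDiv (base (G0 c₀) (G1 c₁)), ord P B ≤ ord P M) :
    M ∈ Ideal.span {B} ⊔ base (G0 c₀) (G1 c₁) := by
  have hI := base_prime h h0 h1
  obtain ⟨n, d, B', hn, hd, hnB⟩ := exists_multiple h h0 h1 hB hBI
  have hB' : B' ∉ base (G0 c₀) (G1 c₁) := by
    intro h2
    apply iot_not_mem h h0 h1 hn
    have h3 : iot n = (iot n - B * B') + B * B' := by ring
    rw [h3]
    exact Ideal.add_mem _ hnB (Ideal.mul_mem_left _ _ h2)
  have hMB : M * B' ∉ base (G0 c₀) (G1 c₁) := fun h2 => (hI.mem_or_mem h2).elim hMI hB'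
  have h2 := form_step h h0 h1 d n hn hd (M * B') hMB (by
    intro P
    obtain ⟨π, hπ⟩ := curve_locPrin h h0 h1 P
    rw [ord_congr P hnB, hπ.ord_mul hI hBI hB', hπ.ord_mul hI hMI hB']
    have := hord P
    omega)
  obtain ⟨a, ha, b, hb, hab⟩ := Submodule.mem_sup.mp h2
  obtain ⟨H, rfl⟩ := Ideal.mem_span_singleton.mp ha
  have h3 : B' * (M - B * H) ∈ base (G0 c₀) (G1 c₁) := by
    have h4 : B' * (M - B * H) = (iot n - B * B') * H + b := by
      linear_combination -hab
    rw [h4]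
    exact Ideal.add_mem _ (Ideal.mul_mem_right _ _ hnB) hb
  have h4 := (hI.mem_or_mem h3).resolve_left hB'
  have h5 : M = B * H + (M - B * H) := by ring
  rw [h5]
  exact Ideal.add_mem _ (Ideal.mem_sup_left (Ideal.mul_mem_right _ _
    (Ideal.mem_span_singleton_self _))) (Ideal.mem_sup_right h4)

end curve

end CN

end PicJump

end
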