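import Pool.Agent.Lib_helper43.PJ.D

/-!
The coordinate ring of the base curve: normal form and primality.
-/

noncomputable section

namespace PicJump

namespace CN

open MvPolynomial

section kummer

variable {K L : Type*} [Field K] [Field L] [Algebra K L]

theorem chi_aux (hμ : ∀ x : L, x ^ 4 = 1 → ∃ c : K, algebraMap K L c = x) {x : L} {a : K}
    (hx : x ≠ 0) (h : x ^ 4 = algebraMap K L a) (σ τ : L ≃ₐ[K] L) :
    σ (τ x) / x = σ x / x * (τ x / x) := by
  have h1 : (τ x / x) ^ 4 = 1 := by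
    rw [div_pow, ← map_pow, h, AlgEquiv.commutes, ← h, div_self (pow_ne_zero _ hx)]
  obtain ⟨c, hc⟩ := hμ _ h1
  have h2 : τ x = algebraMap K L c * x := by rw [hc, div_mul_cancel₀ _ hx]
  rw [h2, map_mul, AlgEquiv.commutes]
  field_simp

/-- The character `σ ↦ σ x / x`. -/
def chi (hμ : ∀ x : L, x ^ 4 = 1 → ∃ c : K, algebraMap K L c = x) {x : L} {a : K}
    (hx : x ≠ 0) (h : x ^ 4 = algebraMap K L a) : (L ≃ₐ[K] L) →* L where
  toFun σ := σ x / x
  map_one' := by simp [hx]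
  map_mul' σ τ := chi_aux hμ hx h σ τ

theorem kummer [IsGalois K L] (hμ : ∀ x : L, x ^ 4 = 1 → ∃ c : K, algebraMap K L c = x)
    {z w : L} {a b : K} (hz : z ^ 4 = algebraMap K L a) (hw : w ^ 4 = algebraMap K L b)
    (ha : a ≠ 0) (hb : b ≠ 0)
    (hind : ∀ (i j i' j' : Fin 4) (c : K), c ^ 4 * (a ^ (i' : ℕ) * b ^ (j' : ℕ)) =
      a ^ (i : ℕ) * b ^ (j : ℕ) → i = i' ∧ j = j')
    (m : Fin 4 × Fin 4 → K)
    (h : ∑ e, algebraMap K L (m e) * (z ^ (e.1 : ℕ) * w ^ (e.2 : ℕ)) = 0) (e : Fin 4 × Fin 4) :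
    m e = 0 := by
  have hz0 : z ≠ 0 := by
    rintro rfl
    rw [zero_pow (by norm_num), eq_comm, map_eq_zero] at hz
    exact ha hz
  have hw0 : w ≠ 0 := by
    rintro rfl
    rw [zero_pow (by norm_num), eq_comm, map_eq_zero] at hw
    exact hb hw
  let f : Fin 4 × Fin 4 → ((L ≃ₐ[K] L) →* L) := fun e =>
    chi hμ hz0 hz ^ (e.1 : ℕ) * chi hμ hw0 hw ^ (e.2 : ℕ)
  have hf : ∀ e σ, f e σ = (σ z / z) ^ (e.1 : ℕ) * (σ w / w) ^ (e.2 : ℕ) := fun e σ => rfl
  have hinj : Function.Injective f := by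
    intro e e' he
    have h1 : ∀ σ : L ≃ₐ[K] L, σ (z ^ (e.1 : ℕ) * w ^ (e.2 : ℕ) / (z ^ (e'.1 : ℕ) * w ^ (e'.2 : ℕ)))
        = z ^ (e.1 : ℕ) * w ^ (e.2 : ℕ) / (z ^ (e'.1 : ℕ) * w ^ (e'.2 : ℕ)) := by
      intro σ
      have h2 : f e σ = f e' σ := by rw [he]
      rw [hf, hf] at h2
      have hσz : σ z ≠ 0 := by rwa [Ne, map_eq_zero]
      have hσw : σ w ≠ 0 := by rwa [Ne, map_eq_zero]
      rw [map_div₀, map_mul, map_mul, map_pow, map_pow, map_pow, map_pow, div_eq_div_iff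
        (by positivity) (by positivity)]
      simp only [div_pow] at h2
      field_simp at h2
      linear_combination h2
    obtain ⟨c, hc⟩ := (InfiniteGalois.mem_bot_iff_fixed (k := K) (K := L) _).mpr h1
    have hc' : algebraMap K L c = z ^ (e.1 : ℕ) * w ^ (e.2 : ℕ) /
      (z ^ (e'.1 : ℕ) * w ^ (e'.2 : ℕ)) := hc
    have h3 := hind e.1 e.2 e'.1 e'.2 c (by
      apply (algebraMap K L).injective
      simp only [map_mul, map_pow]
      rw [hc', ← hz, ← hw]
      field_simp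
      ring)
    exact Prod.ext h3.1 h3.2
  have hli := (linearIndependent_monoidHom (L ≃ₐ[K] L) L).comp f hinj
  rw [Fintype.linearIndependent_iff] at hli
  have h4 := hli (fun e => algebraMap K L (m e) * (z ^ (e.1 : ℕ) * w ^ (e.2 : ℕ))) (by
    funext σ
    rw [Finset.sum_apply]
    simp only [Function.comp_apply, Pi.smul_apply, smul_eq_mul, Pi.zero_apply]
    have h5 := congrArg σ h
    rw [map_sum, map_zero] at h5
    rw [← h5]
    apply Finset.sum_congr rfl
    intro e _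
    rw [hf, map_mul, AlgEquiv.commutes, map_mul, map_pow, map_pow, div_pow, div_pow]
    field_simp) e
  rw [mul_eq_zero, map_eq_zero] at h4
  rcases h4 with h4 | h4
  · exact h4
  · exact absurd h4 (by positivity)

end kummer

section S2

/-- `k[x, y]` -/
abbrev S2 (k : Type) [Field k] : Type := MvPolynomial (Fin 2) k

variable {k : Type} [Field k]

/-- `x^4 + c x^2 y^2 + y^4` -/
def A2 (c : k) : S2 k := X 0 ^ 4 + C c * X 0 ^ 2 * X 1 ^ 2 + X 1 ^ 4

/-- the inclusion of `k[x, y]` in `k[x, y, z, w]` -/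
def iot : S2 k →ₐ[k] Pol k := aeval ![X 0, X 1]

/-- restriction to the line of the point `(α : β)` -/
def res (α β : k) : S2 k →ₐ[k] Polynomial k :=
  aeval ![Polynomial.C α * Polynomial.X, Polynomial.C β * Polynomial.X]

/-- the linear form vanishing at `(α : β)` -/
def lin (α β : k) : S2 k := C β * X 0 - C α * X 1

theorem res_X0 (α β : k) : res α β (X 0) = Polynomial.C α * Polynomial.X := by
  simp [res]

theorem res_X1 (α β : k) : res α β (X 1) = Polynomial.C β * Polynomial.X := by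
  simp [res]

theorem res_lin (α β : k) : res α β (lin α β) = 0 := by
  simp only [lin, map_sub, map_mul, res_X0, res_X1]
  simp only [res, MvPolynomial.aeval_C, Polynomial.algebraMap_eq]
  ring

theorem lin_dvd_iff {α β : k} (h : α ≠ 0 ∨ β ≠ 0) (f : S2 k) :
    lin α β ∣ f ↔ res α β f = 0 := by
  constructor
  · rintro ⟨g, rfl⟩
    rw [map_mul, res_lin, zero_mul]
  · intro hf
    have hu : ∃ u : S2 k, X 0 - C α * u ∈ Ideal.span {lin α β} ∧
        X 1 - C β * u ∈ Ideal.span {lin α β} := by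
      rcases h with h | h
      · refine ⟨C α⁻¹ * X 0, ?_, ?_⟩
        · rw [← mul_assoc, ← C_mul, mul_inv_cancel₀ h, C_1, one_mul, sub_self]
          exact Ideal.zero_mem _
        · rw [Ideal.mem_span_singleton]
          refine ⟨-C α⁻¹, ?_⟩
          have : (C α : S2 k) * C α⁻¹ = 1 := by rw [← C_mul, mul_inv_cancel₀ h, C_1]
          unfold lin
          linear_combination (-X 1) * this
      · refine ⟨C β⁻¹ * X 1, ?_, ?_⟩
        · rw [Ideal.mem_span_singleton]
          refine ⟨C β⁻¹, ?_⟩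
          have : (C β : S2 k) * C β⁻¹ = 1 := by rw [← C_mul, mul_inv_cancel₀ h, C_1]
          unfold lin
          linear_combination (-X 0) * this
        · rw [← mul_assoc, ← C_mul, mul_inv_cancel₀ h, C_1, one_mul, sub_self]
          exact Ideal.zero_mem _
    obtain ⟨u, hu0, hu1⟩ := hu
    set q := Ideal.Quotient.mkₐ k (Ideal.span {lin α β}) with hq
    have h1 : (Polynomial.aeval (q u)).comp (res α β) = q := by
      apply MvPolynomial.algHom_ext
      intro i
      fin_cases i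
      · have := (Ideal.Quotient.eq_zero_iff_mem.mpr hu0)
        have h2 : q (X 0 - C α * u) = 0 := this
        rw [map_sub, map_mul, sub_eq_zero] at h2
        simp only [Fin.zero_eta, AlgHom.comp_apply, res_X0, map_mul, Polynomial.aeval_C,
          Polynomial.aeval_X]
        rw [h2, ← MvPolynomial.algebraMap_eq, AlgHom.commutes]
      · have := (Ideal.Quotient.eq_zero_iff_mem.mpr hu1)
        have h2 : q (X 1 - C β * u) = 0 := this
        rw [map_sub, map_mul, sub_eq_zero] at h2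
        simp only [Fin.mk_one, AlgHom.comp_apply, res_X1, map_mul, Polynomial.aeval_C,
          Polynomial.aeval_X]
        rw [h2, ← MvPolynomial.algebraMap_eq, AlgHom.commutes]
    have h3 : q f = 0 := by
      rw [← h1, AlgHom.comp_apply, hf, map_zero]
    exact Ideal.mem_span_singleton.mp (Ideal.Quotient.eq_zero_iff_mem.mp h3)

theorem lin_prime {α β : k} (h : α ≠ 0 ∨ β ≠ 0) : Prime (lin α β) := by
  refine ⟨?_, ?_, ?_⟩
  · intro h0
    have h1 := congrArg (coeff (Finsupp.single 0 1)) h0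
    have h2 := congrArg (coeff (Finsupp.single 1 1)) h0
    simp [lin, coeff_C_mul, coeff_X, Finsupp.single_left_inj] at h1 h2
    rcases h with h | h
    · exact h h2
    · exact h h1
  · intro hu
    have h1 := (lin_dvd_iff h 1).mp (isUnit_iff_dvd_one.mp hu)
    rw [map_one] at h1
    exact one_ne_zero h1
  · intro a b hab
    rw [lin_dvd_iff h, map_mul, mul_eq_zero] at hab
    rwa [lin_dvd_iff h, lin_dvd_iff h]

theorem res_A2 (α β c : k) : res α β (A2 c) =
    Polynomial.C (α ^ 4 + c * α ^ 2 * β ^ 2 + β ^ 4) * Polynomial.X ^ 4 := by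
  simp only [A2, map_add, map_mul, map_pow, res_X0, res_X1]
  rw [show res α β (C c) = Polynomial.C c by simp [res]]
  ring

theorem lin_dvd_A2_iff {α β : k} (h : α ≠ 0 ∨ β ≠ 0) (c : k) : lin α β ∣ A2 c ↔
    α ^ 4 + c * α ^ 2 * β ^ 2 + β ^ 4 = 0 := by
  rw [lin_dvd_iff h, res_A2, mul_eq_zero, or_iff_left (pow_ne_zero _ Polynomial.X_ne_zero),
    Polynomial.C_eq_zero]

theorem A2_ne_zero (c : k) : A2 c ≠ 0 := by
  intro h
  have h1 : lin (1 : k) 0 ∣ A2 c := by rw [h]; exact dvd_zero _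
  rw [lin_dvd_A2_iff (Or.inl one_ne_zero)] at h1
  simp at h1

theorem coprime_aux {c c' : k} (h : c ≠ c') {α β : k} (h0 : α ≠ 0 ∨ β ≠ 0)
    (h1 : α ^ 4 + c * α ^ 2 * β ^ 2 + β ^ 4 = 0) (h2 : α ^ 4 + c' * α ^ 2 * β ^ 2 + β ^ 4 = 0) :
    False := by
  have h3 : (c - c') * (α * β) ^ 2 = 0 := by linear_combination h1 - h2
  rcases mul_eq_zero.mp h3 with h3 | h3
  · exact h (sub_eq_zero.mp h3)
  · rcases mul_eq_zero.mp (pow_eq_zero_iff (two_ne_zero) |>.mp h3) with h3 | h3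
    · subst h3
      rcases h0 with h0 | h0
      · exact h0 rfl
      · apply h0
        have : β ^ 4 = 0 := by linear_combination h1
        exact pow_eq_zero_iff (four_ne_zero) |>.mp this
    · subst h3
      rcases h0 with h0 | h0
      · apply h0
        have : α ^ 4 = 0 := by linear_combination h1
        exact pow_eq_zero_iff (four_ne_zero) |>.mp this
      · exact h0 rfl

theorem sq_not_dvd [CharZero k] {c : k} (hc : c ^ 2 ≠ 4) {p : k} (hp : p ^ 4 + c * p ^ 2 + 1 = 0) :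
    ¬ lin p 1 ^ 2 ∣ A2 c := by
  rintro ⟨g, hg⟩
  have h1 := congrArg (fun f => eval ![p, 1] (pderiv 0 f)) hg
  simp only [A2, lin, map_add, Derivation.leibniz, Derivation.leibniz_pow, pderiv_X_self,
    pderiv_C, map_mul, map_sub, pderiv_X_of_ne (show (1 : Fin 2) ≠ 0 by decide), smul_eq_mul,
    nsmul_eq_mul, eval_X, eval_C, map_pow, map_natCast, map_one, map_zero, Matrix.cons_val_zero,
    Matrix.cons_val_one] at h1
  norm_num at h1
  have hp0 : p ≠ 0 := by
    rintro rfl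
    norm_num at hp
  have h2 : p ^ 2 = - c / 2 := by
    have h3 : p * (2 * p ^ 2 + c) = 0 := by linear_combination h1 / 2
    rcases mul_eq_zero.mp h3 with h3 | h3
    · exact absurd h3 hp0
    · linear_combination h3 / 2
  apply hc
  have h4 : p ^ 4 = c ^ 2 / 4 := by
    rw [show p ^ 4 = (p ^ 2) ^ 2 by ring, h2]; ring
  rw [h4, h2] at hp
  linear_combination -4 * hp

theorem exists_root [IsAlgClosed k] (c : k) : ∃ p : k, p ^ 4 + c * p ^ 2 + 1 = 0 := by
  obtain ⟨q, hq⟩ := IsAlgClosed.exists_root (Polynomial.X ^ 2 + Polynomial.C c * Polynomial.X + 1 :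
    Polynomial k) (by
      have : (Polynomial.X ^ 2 + Polynomial.C c * Polynomial.X + 1 : Polynomial k).degree = 2 := by
        compute_degree!
      rw [this]; decide)
  obtain ⟨p, hp⟩ := IsAlgClosed.exists_pow_nat_eq q (n := 2) (by norm_num)
  refine ⟨p, ?_⟩
  simp only [Polynomial.IsRoot, Polynomial.eval_add, Polynomial.eval_pow, Polynomial.eval_X,
    Polynomial.eval_mul, Polynomial.eval_C, Polynomial.eval_one] at hq
  rw [← hq, ← hp]; ring

theorem mult_aux {R : Type*} [CommRing R] [IsDomain R] [UniqueFactorizationMonoid R]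
    {π a b n d : R} (hπ : Prime π) (h1 : π ∣ a) (h2 : ¬ π ^ 2 ∣ a) (h3 : ¬ π ∣ b) (hn : n ≠ 0)
    (hd : d ≠ 0) {i j i' j' : ℕ} (hi : i < 4) (hi' : i' < 4)
    (he : n ^ 4 * (a ^ i' * b ^ j') = d ^ 4 * (a ^ i * b ^ j)) : i = i' := by
  have e1 : emultiplicity π a = 1 := emultiplicity_eq_coe.mpr ⟨by simpa using h1, h2⟩
  have e2 : emultiplicity π b = 0 := emultiplicity_eq_zero.mpr h3
  have e3 := (FiniteMultiplicity.of_prime_left hπ hn).emultiplicity_eq_multiplicity
  have e4 := (FiniteMultiplicity.of_prime_left hπ hd).emultiplicity_eq_multiplicity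
  have h5 := congrArg (emultiplicity π) he
  simp only [emultiplicity_mul hπ, emultiplicity_pow hπ, e1, e2, e3, e4, mul_one, mul_zero,
    add_zero] at h5
  have h6 : (4 : ℕ) * multiplicity π n + i' = 4 * multiplicity π d + i := by
    exact_mod_cast h5
  omega

theorem hind_S [IsAlgClosed k] [CharZero k] {c₀ c₁ : k} (h : c₀ ≠ c₁) (h0 : c₀ ^ 2 ≠ 4)
    (h1 : c₁ ^ 2 ≠ 4) {n d : S2 k} (hn : n ≠ 0) (hd : d ≠ 0) {i j i' j' : Fin 4}
    (he : n ^ 4 * (A2 c₀ ^ (i' : ℕ) * A2 c₁ ^ (j' : ℕ)) =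
      d ^ 4 * (A2 c₀ ^ (i : ℕ) * A2 c₁ ^ (j : ℕ))) : i = i' ∧ j = j' := by
  have key : ∀ {c c' : k}, c ≠ c' → c ^ 2 ≠ 4 → ∃ π : S2 k, Prime π ∧ π ∣ A2 c ∧ ¬ π ^ 2 ∣ A2 c ∧
      ¬ π ∣ A2 c' := by
    intro c c' hc hc4
    obtain ⟨p, hp⟩ := exists_root c
    have hne : p ≠ 0 ∨ (1 : k) ≠ 0 := Or.inr one_ne_zero
    have hp' : p ^ 4 + c * p ^ 2 * 1 ^ 2 + 1 ^ 4 = 0 := by linear_combination hp
    refine ⟨lin p 1, lin_prime hne, (lin_dvd_A2_iff hne c).mpr hp', sq_not_dvd hc4 hp, ?_⟩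
    intro h2
    exact coprime_aux hc hne hp' ((lin_dvd_A2_iff hne c').mp h2)
  constructor
  · obtain ⟨π, p1, p2, p3, p4⟩ := key h h0
    exact Fin.ext (mult_aux p1 p2 p3 p4 hn hd i.2 i'.2 he)
  · obtain ⟨π, p1, p2, p3, p4⟩ := key (Ne.symm h) h1
    rw [mul_comm (A2 c₀ ^ _), mul_comm (A2 c₀ ^ _)] at he
    exact Fin.ext (mult_aux p1 p2 p3 p4 hn hd j.2 j'.2 he)

theorem iot_A2 (c : k) : iot (A2 c) = X 0 ^ 4 + C c * X 0 ^ 2 * X 1 ^ 2 + X 1 ^ 4 := by
  have h0 : iot (X 0 : S2 k) = X 0 := by simp [iot]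
  have h1 : iot (X 1 : S2 k) = X 1 := by simp [iot]
  have h2 : iot (C c : S2 k) = C c := by simp [iot, MvPolynomial.algebraMap_eq]
  simp only [A2, map_add, map_mul, map_pow, h0, h1, h2]

/-- the normal form with the given coefficients -/
def nf (m : Fin 4 × Fin 4 → S2 k) : Pol k :=
  ∑ e, iot (m e) * (X 2 ^ (e.1 : ℕ) * X 3 ^ (e.2 : ℕ))

theorem nf_add (m m' : Fin 4 × Fin 4 → S2 k) : nf (m + m') = nf m + nf m' := by
  simp only [nf, Pi.add_apply, map_add, add_mul, Finset.sum_add_distrib]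

theorem nf_single (e : Fin 4 × Fin 4) (s : S2 k) :
    nf (Pi.single e s) = iot s * (X 2 ^ (e.1 : ℕ) * X 3 ^ (e.2 : ℕ)) := by
  unfold nf
  rw [Finset.sum_eq_single e]
  · rw [Pi.single_eq_same]
  · intro e' _ he
    rw [Pi.single_eq_of_ne he, map_zero, zero_mul]
  · intro h
    exact absurd (Finset.mem_univ e) h

theorem q_X2 (c₀ c₁ : k) : Ideal.Quotient.mk (base (G0 c₀) (G1 c₁)) (X 2) ^ 4 =
    Ideal.Quotient.mk _ (iot (A2 c₀)) := by
  rw [← map_pow, eq_comm, ← sub_eq_zero, ← map_sub, Ideal.Quotient.eq_zero_iff_mem]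
  refine Ideal.subset_span (Or.inl ?_)
  rw [iot_A2]; rfl

theorem q_X3 (c₀ c₁ : k) : Ideal.Quotient.mk (base (G0 c₀) (G1 c₁)) (X 3) ^ 4 =
    Ideal.Quotient.mk _ (iot (A2 c₁)) := by
  rw [← map_pow, eq_comm, ← sub_eq_zero, ← map_sub, Ideal.Quotient.eq_zero_iff_mem]
  refine Ideal.subset_span (Or.inr ?_)
  rw [iot_A2]; rfl

theorem nf_exists (c₀ c₁ : k) (f : Pol k) :
    ∃ m : Fin 4 × Fin 4 → S2 k, f - nf m ∈ base (G0 c₀) (G1 c₁) := by
  induction f using MvPolynomial.induction_on' with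
  | monomial u a =>
    refine ⟨Pi.single (⟨u 2 % 4, Nat.mod_lt _ (by norm_num)⟩, ⟨u 3 % 4, Nat.mod_lt _ (by norm_num)⟩)
      (C a * X 0 ^ u 0 * X 1 ^ u 1 * A2 c₀ ^ (u 2 / 4) * A2 c₁ ^ (u 3 / 4)), ?_⟩
    rw [nf_single, ← Ideal.Quotient.eq_zero_iff_mem, map_sub, sub_eq_zero, monomial_eq,
      Finsupp.prod_fintype _ _ (fun i => pow_zero _), Fin.prod_univ_four]
    have h0 : iot (X 0 : S2 k) = X 0 := by simp [iot]
    have h1 : iot (X 1 : S2 k) = X 1 := by simp [iot]
    have h2 : iot (C a : S2 k) = C a := by simp [iot, MvPolynomial.algebraMap_eq]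
    simp only [map_mul, map_pow, h0, h1, h2, ← q_X2, ← q_X3, ← pow_mul]
    conv_lhs => rw [← Nat.div_add_mod (u 2) 4, ← Nat.div_add_mod (u 3) 4]
    simp only [pow_add]
    ring
  | add f g hf hg =>
    obtain ⟨m, hm⟩ := hf
    obtain ⟨m', hf⟩ := hg
    refine ⟨m + m', ?_⟩
    rw [nf_add, add_sub_add_comm]
    exact Ideal.add_mem _ hm hf

theorem fourth_root {F : Type*} [Field F] [Algebra k F] [IsAlgClosed k] {x : F} (hx : x ^ 4 = 1) :
    ∃ c : k, algebraMap k F c = x := by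
  obtain ⟨I, hI⟩ := IsAlgClosed.exists_pow_nat_eq (-1 : k) (n := 2) (by norm_num)
  have h1 : (algebraMap k F I) ^ 2 = -1 := by rw [← map_pow, hI]; simp
  have h2 : (x - 1) * (x + 1) * ((x - algebraMap k F I) * (x + algebraMap k F I)) = 0 := by
    linear_combination hx + (1 - x ^ 2) * h1
  rcases mul_eq_zero.mp h2 with h2 | h2 <;> rcases mul_eq_zero.mp h2 with h2 | h2
  · exact ⟨1, by rw [map_one]; linear_combination -h2⟩
  · exact ⟨-1, by rw [map_neg, map_one]; linear_combination -h2⟩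
  · exact ⟨I, by linear_combination -h2⟩
  · exact ⟨-I, by rw [map_neg]; linear_combination -h2⟩

/-- A model of the coordinate ring of the base curve in a field. -/
theorem exists_model [IsAlgClosed k] [CharZero k] {c₀ c₁ : k} (h : c₀ ≠ c₁) (h0 : c₀ ^ 2 ≠ 4)
    (h1 : c₁ ^ 2 ≠ 4) : ∃ (L : Type) (_ : Field L) (φ : Pol k →+* L),
      (∀ f, φ f = 0 ↔ f ∈ base (G0 c₀) (G1 c₁)) ∧ ∀ m, φ (nf m) = 0 → m = 0 := by
  let K := FractionRing (S2 k)
  let L := AlgebraicClosure K
  obtain ⟨z, hz⟩ := IsAlgClosed.exists_pow_nat_eq (algebraMap K L (algebraMap (S2 k) K (A2 c₀)))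
    (n := 4) (by norm_num)
  obtain ⟨w, hw⟩ := IsAlgClosed.exists_pow_nat_eq (algebraMap K L (algebraMap (S2 k) K (A2 c₁)))
    (n := 4) (by norm_num)
  let φ : Pol k →ₐ[k] L := aeval ![algebraMap K L (algebraMap (S2 k) K (X 0)),
    algebraMap K L (algebraMap (S2 k) K (X 1)), z, w]
  have hφ0 : φ (X 0) = algebraMap K L (algebraMap (S2 k) K (X 0)) := by simp [φ]
  have hφ1 : φ (X 1) = algebraMap K L (algebraMap (S2 k) K (X 1)) := by simp [φ]
  have hφ2 : φ (X 2) = z := by simp [φ]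
  have hφ3 : φ (X 3) = w := by simp [φ]
  have hι0 : iot (X 0 : S2 k) = X 0 := by simp [iot]
  have hι1 : iot (X 1 : S2 k) = X 1 := by simp [iot]
  have hφι : ∀ s : S2 k, φ (iot s) = algebraMap K L (algebraMap (S2 k) K s) := by
    have h2 : φ.comp iot = IsScalarTower.toAlgHom k (S2 k) L := by
      apply MvPolynomial.algHom_ext
      intro i
      fin_cases i
      · simp only [Fin.zero_eta, AlgHom.comp_apply, hι0, hφ0, IsScalarTower.coe_toAlgHom']
        rfl
      · simp only [Fin.mk_one, AlgHom.comp_apply, hι1, hφ1, IsScalarTower.coe_toAlgHom']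
        rfl
    intro s
    have h3 := congrArg (fun g => g s) h2
    simp only [AlgHom.comp_apply, IsScalarTower.coe_toAlgHom'] at h3
    rw [h3]; rfl
  have hker : ∀ f ∈ base (G0 c₀) (G1 c₁), φ f = 0 := by
    intro f hf
    have h2 : base (G0 c₀) (G1 c₁) ≤ RingHom.ker φ.toRingHom := by
      unfold base
      rw [Ideal.span_le]
      rintro g (rfl | hg)
      · have h3 : φ (iot (A2 c₀) - X 2 ^ 4) = 0 := by
          rw [map_sub, map_pow, hφι, hφ2, hz, sub_self]
        rw [iot_A2] at h3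
        exact h3
      · rw [Set.mem_singleton_iff] at hg
        subst hg
        have h3 : φ (iot (A2 c₁) - X 3 ^ 4) = 0 := by
          rw [map_sub, map_pow, hφι, hφ3, hw, sub_self]
        rw [iot_A2] at h3
        exact h3
    exact h2 hf
  have hinj : Function.Injective (algebraMap (S2 k) K) := IsFractionRing.injective _ _
  have hA : ∀ c : k, algebraMap (S2 k) K (A2 c) ≠ 0 := by
    intro c h2
    exact A2_ne_zero c (hinj (by rw [h2, map_zero]))
  have hnf : ∀ m, φ (nf m) = 0 → m = 0 := by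
    intro m hm
    have h2 : ∑ e, algebraMap K L ((algebraMap (S2 k) K) (m e)) *
        (z ^ (e.1 : ℕ) * w ^ (e.2 : ℕ)) = 0 := by
      rw [← hm, nf, map_sum]
      apply Finset.sum_congr rfl
      intro e _
      rw [map_mul, map_mul, map_pow, map_pow, hφι, hφ2, hφ3]
    funext e
    have h3 := kummer (K := K) (L := L) (fun x hx => by
      obtain ⟨c, hc⟩ := fourth_root (k := k) hx
      exact ⟨algebraMap k K c, by rw [← hc]; exact (IsScalarTower.algebraMap_apply k K L c).symm⟩)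
      hz hw (hA c₀) (hA c₁) (by
        intro i j i' j' c hc
        obtain ⟨n, d, hd, rfl⟩ := IsFractionRing.div_surjective (A := S2 k) c
        have hd0 : d ≠ 0 := nonZeroDivisors.ne_zero hd
        have hdK : algebraMap (S2 k) K d ≠ 0 := fun h4 => hd0 (hinj (by rw [h4, map_zero]))
        have h5 : n ^ 4 * (A2 c₀ ^ (i' : ℕ) * A2 c₁ ^ (j' : ℕ)) =
            d ^ 4 * (A2 c₀ ^ (i : ℕ) * A2 c₁ ^ (j : ℕ)) := by
          apply hinj
          simp only [map_mul, map_pow]
          rw [div_pow, div_mul_eq_mul_div, div_eq_iff (pow_ne_zero 4 hdK)] at hc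
          rw [hc, mul_comm]
        have hn0 : n ≠ 0 := by
          rintro rfl
          rw [zero_pow (by norm_num), zero_mul, eq_comm] at h5
          rcases mul_eq_zero.mp h5 with h6 | h6
          · exact hd0 ((pow_eq_zero_iff (by norm_num)).mp h6)
          · rcases mul_eq_zero.mp h6 with h6 | h6
            · exact A2_ne_zero c₀ (eq_zero_of_pow_eq_zero h6)
            · exact A2_ne_zero c₁ (eq_zero_of_pow_eq_zero h6)
        exact hind_S h h0 h1 hn0 hd0 h5) (fun e => algebraMap (S2 k) K (m e)) h2 e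
    exact hinj (by rw [h3, Pi.zero_apply, map_zero])
  refine ⟨L, inferInstance, φ.toRingHom, ?_, hnf⟩
  intro f
  constructor
  · intro hf
    obtain ⟨m, hm⟩ := nf_exists c₀ c₁ f
    have h2 := hker _ hm
    have hf' : φ f = 0 := hf
    rw [map_sub, hf', zero_sub, neg_eq_zero] at h2
    have h3 := hnf m h2
    rw [h3] at hm
    simpa [nf] using hm
  · exact hker f

theorem base_prime' [IsAlgClosed k] [CharZero k] {c₀ c₁ : k} (h : c₀ ≠ c₁) (h0 : c₀ ^ 2 ≠ 4)
    (h1 : c₁ ^ 2 ≠ 4) : (base (G0 c₀) (G1 c₁)).IsPrime := by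
  obtain ⟨L, _, φ, h2, -⟩ := exists_model h h0 h1
  have h3 : base (G0 c₀) (G1 c₁) = RingHom.ker φ := by
    ext f
    rw [RingHom.mem_ker, h2]
  rw [h3]
  exact RingHom.ker_isPrime φ

theorem nf_unique [IsAlgClosed k] [CharZero k] {c₀ c₁ : k} (h : c₀ ≠ c₁) (h0 : c₀ ^ 2 ≠ 4)
    (h1 : c₁ ^ 2 ≠ 4) {m : Fin 4 × Fin 4 → S2 k} (hm : nf m ∈ base (G0 c₀) (G1 c₁)) : m = 0 := by
  obtain ⟨L, _, φ, h2, h3⟩ := exists_model h h0 h1
  exact h3 m ((h2 _).mpr hm)

section

attribute [local instance] MvPolynomial.gradedAlgebra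

theorem homog_span {s : Set (Pol k)} (hs : ∀ f ∈ s, ∃ n, f.IsHomogeneous n) :
    HomogIdeal (Ideal.span s) := by
  have h1 : (Ideal.span s).IsHomogeneous (homogeneousSubmodule (Fin 4) k) := by
    apply Ideal.homogeneous_span
    intro x hx
    obtain ⟨n, hn⟩ := hs x hx
    exact ⟨n, hn⟩
  intro f hf n
  exact homogeneousComponent_mem_of_mem h1 hf n

end

theorem G0_homog (c : k) : (G0 c).IsHomogeneous 4 := by
  unfold G0
  have h : ∀ i : Fin 4, (X i : Pol k).IsHomogeneous 1 := fun i => isHomogeneous_X _ _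
  refine (((h 0).pow 4).add ?_).add ((h 1).pow 4) |>.sub ((h 2).pow 4)
  have := ((isHomogeneous_C (Fin 4) c).mul ((h 0).pow 2)).mul ((h 1).pow 2)
  simpa using this

theorem G1_homog (c : k) : (G1 c).IsHomogeneous 4 := by
  unfold G1
  have h : ∀ i : Fin 4, (X i : Pol k).IsHomogeneous 1 := fun i => isHomogeneous_X _ _
  refine (((h 0).pow 4).add ?_).add ((h 1).pow 4) |>.sub ((h 3).pow 4)
  have := ((isHomogeneous_C (Fin 4) c).mul ((h 0).pow 2)).mul ((h 1).pow 2)
  simpa using this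

theorem base_homog' (c₀ c₁ : k) : HomogIdeal (base (G0 c₀) (G1 c₁)) := by
  apply homog_span
  rintro f (rfl | hf)
  · exact ⟨4, G0_homog _⟩
  · rw [Set.mem_singleton_iff] at hf
    subst hf
    exact ⟨4, G1_homog _⟩

end S2

end CN

end PicJump

end
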